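import Pool.Agent.W979.TE.Defs3

set_option autoImplicit false

open Classical
open Pool.Agent.W715.BC Pool.Agent.W979.TE3

namespace Pool.Agent.W588.TE.G

/-- change of the entry (x,l) -/
noncomputable def up {A : Type} {s q : ℕ} (x : Option (Fin s)) (l : Fin q)
    (ρ : Option (Fin s) → Fin q → A) (b : A) : Option (Fin s) → Fin q → A :=
  fun x' l' => if x' = x ∧ l' = l then b else ρ x' l'

theorem up_self {A : Type} {s q : ℕ} (x : Option (Fin s)) (l : Fin q)
    (ρ : Option (Fin s) → Fin q → A) (b : A) : up x l ρ b x l = b := by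
  simp [up]

theorem up_up {A : Type} {s q : ℕ} (x : Option (Fin s)) (l : Fin q)
    (ρ : Option (Fin s) → Fin q → A) (b : A) : up x l (up x l ρ b) (ρ x l) = ρ := by
  funext x' l'
  by_cases h : x' = x ∧ l' = l
  · obtain ⟨rfl, rfl⟩ := h
    simp [up]
  · simp [up, h]

theorem sum_up {A : Type} [Fintype A] {s q : ℕ} (x : Option (Fin s)) (l : Fin q)
    (f : (Option (Fin s) → Fin q → A) → ℝ) :
    ∑ ρ, ∑ b, f (up x l ρ b) = (Fintype.card A : ℝ) * ∑ ρ, f ρ := by
  let e : ((Option (Fin s) → Fin q → A) × A) ≃ ((Option (Fin s) → Fin q → A) × A) :=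
    { toFun := fun p => (up x l p.1 p.2, p.1 x l)
      invFun := fun p => (up x l p.1 p.2, p.1 x l)
      left_inv := by
        rintro ⟨ρ, b⟩
        simp [up_up, up_self]
      right_inv := by
        rintro ⟨ρ, b⟩
        simp [up_up, up_self] }
  have h1 : ∑ ρ, ∑ b, f (up x l ρ b) =
      ∑ p : (Option (Fin s) → Fin q → A) × A, f ((e p).1) := by
    rw [Fintype.sum_prod_type]
    rfl
  rw [h1, Equiv.sum_comp e (fun p => f p.1), Fintype.sum_prod_type]
  simp [Finset.mul_sum, mul_comm]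

/-- possible centres when the roots other than (x,l) are given -/
noncomputable def XX {A B : Type} [Fintype A] [Fintype B] {s q : ℕ} (r : A → B → Prop) (L M1 : ℕ)
    (x : Option (Fin s)) (l : Fin q) (ρ : Option (Fin s) → Fin q → A) : Finset A :=
  Finset.univ.filter (fun a => ∃ z : Cop A B s q, CC r L M1 z ∧ z.1 x = a ∧
    ∀ x' l', ¬ (x' = x ∧ l' = l) → z.2.1 x' l' = ρ x' l')

theorem XX_up {A B : Type} [Fintype A] [Fintype B] {s q : ℕ} (r : A → B → Prop) (L M1 : ℕ)
    (x : Option (Fin s)) (l : Fin q) (ρ : Option (Fin s) → Fin q → A) (b : A) :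
    XX r L M1 x l (up x l ρ b) = XX r L M1 x l ρ := by
  unfold XX
  congr 1
  funext a
  apply propext
  constructor
  · rintro ⟨z, h1, h2, h3⟩
    refine ⟨z, h1, h2, fun x' l' h => ?_⟩
    rw [h3 x' l' h]
    simp [up, h]
  · rintro ⟨z, h1, h2, h3⟩
    refine ⟨z, h1, h2, fun x' l' h => ?_⟩
    rw [h3 x' l' h]
    simp [up, h]

/-- change of the root (x,l) and its connector -/
noncomputable def mod {A B : Type} {s q : ℕ} (x : Option (Fin s)) (l : Fin q) (z : Cop A B s q)
    (c : B) (b : A) : Cop A B s q :=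
  (z.1, up x l z.2.1 b, z.2.2.1, up x l z.2.2.2 c)

theorem sumXX {A B : Type} [Fintype A] [Fintype B] {s q : ℕ} (r : A → B → Prop) (L M1 D K : ℕ)
    (hR : Reg r D K) (x : Option (Fin s)) (l : Fin q) :
    (∑ ρ, (XX r L M1 x l ρ).card) * D ^ 2 ≤
      Fintype.card A * (Finset.univ.filter (fun z : Cop A B s q => Hm r z)).card := by
  let T : Finset ((Option (Fin s) → Fin q → A) × A × B × A) :=
    Finset.univ.filter (fun p => p.2.1 ∈ XX r L M1 x l p.1 ∧ r p.2.1 p.2.2.1 ∧
      r p.2.2.2 p.2.2.1)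
  have hT : (∑ ρ, (XX r L M1 x l ρ).card) * D ^ 2 ≤ T.card := by
    have e1 : T.card = ∑ ρ, ∑ a ∈ XX r L M1 x l ρ, ∑ c ∈ Finset.univ.filter (fun c => r a c),
        (Finset.univ.filter (fun b => r b c)).card := by
      simp only [T]
      rw [Finset.card_filter, Fintype.sum_prod_type]
      refine Finset.sum_congr rfl fun ρ _ => ?_
      rw [Fintype.sum_prod_type, ← Finset.sum_filter_add_sum_filter_not Finset.univ
        (fun a => a ∈ XX r L M1 x l ρ)]
      have : ∑ a ∈ Finset.univ.filter (fun a => a ∉ XX r L M1 x l ρ), ∑ p : B × A,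
          (if a ∈ XX r L M1 x l ρ ∧ r a p.1 ∧ r p.2 p.1 then 1 else 0) = 0 := by
        refine Finset.sum_eq_zero fun a ha => Finset.sum_eq_zero fun p _ => ?_
        rw [Finset.mem_filter] at ha
        simp [ha.2]
      rw [this, add_zero]
      have h2 : Finset.univ.filter (fun a => a ∈ XX r L M1 x l ρ) = XX r L M1 x l ρ := by
        ext a; simp
      rw [h2]
      refine Finset.sum_congr rfl fun a ha => ?_
      rw [Fintype.sum_prod_type, Finset.sum_filter]
      refine Finset.sum_congr rfl fun c _ => ?_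
      by_cases hc : r a c
      · simp [ha, hc]
      · simp [hc]
    rw [e1, Finset.sum_mul]
    refine Finset.sum_le_sum fun ρ _ => ?_
    rw [Finset.card_eq_sum_ones, Finset.sum_mul]
    refine Finset.sum_le_sum fun a _ => ?_
    calc 1 * D ^ 2 = D * D := by ring
      _ ≤ (Finset.univ.filter (fun c => r a c)).card * D := Nat.mul_le_mul_right _ (hR.la a)
      _ = ∑ c ∈ Finset.univ.filter (fun c => r a c), D := by simp
      _ ≤ _ := Finset.sum_le_sum fun c _ => hR.lb c
  refine hT.trans ?_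
  have e2 : Fintype.card A * (Finset.univ.filter (fun z : Cop A B s q => Hm r z)).card =
      ((Finset.univ : Finset A) ×ˢ (Finset.univ.filter (fun z : Cop A B s q => Hm r z))).card := by
    rw [Finset.card_product, Finset.card_univ]
  rw [e2]
  have hex : ∀ p : (Option (Fin s) → Fin q → A) × A × B × A, p ∈ T →
      ∃ z : Cop A B s q, CC r L M1 z ∧ z.1 x = p.2.1 ∧
        ∀ x' l', ¬ (x' = x ∧ l' = l) → z.2.1 x' l' = p.1 x' l' := by
    intro p hp
    simp only [T, XX, Finset.mem_filter, Finset.mem_univ, true_and] at hp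
    exact hp.1
  rcases T.eq_empty_or_nonempty with hTe | ⟨p0, hp0⟩
  · rw [hTe]
    exact Nat.zero_le _
  haveI : Nonempty (Cop A B s q) := ⟨(hex p0 hp0).choose⟩
  choose! rep hrep using hex
  refine Finset.card_le_card_of_injOn (fun p => (p.1 x l, mod x l (rep p) p.2.2.1 p.2.2.2)) ?_ ?_
  · intro p hp
    obtain ⟨hz1, hz2, hz3⟩ := hrep p hp
    have hp' : p.2.1 ∈ XX r L M1 x l p.1 ∧ r p.2.1 p.2.2.1 ∧ r p.2.2.2 p.2.2.1 := by
      simpa [T] using hp
    simp only [Finset.coe_product, Finset.coe_univ, Set.mem_prod, Set.mem_univ, true_and,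
      Finset.coe_filter, Finset.mem_univ, Set.mem_setOf_eq]
    obtain ⟨hh1, hh2, hh3, hh4⟩ := hz1.1
    refine ⟨hh1, hh2, fun x' l' => ?_, fun x' l' => ?_⟩
    · show r ((rep p).1 x') (up x l (rep p).2.2.2 p.2.2.1 x' l')
      by_cases h : x' = x ∧ l' = l
      · simp only [up, h, and_self, if_true]
        rw [hz2]
        exact hp'.2.1
      · simp only [up, h, if_false]
        exact hh3 x' l'
    · show r (up x l (rep p).2.1 p.2.2.2 x' l') (up x l (rep p).2.2.2 p.2.2.1 x' l')
      by_cases h : x' = x ∧ l' = l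
      · simp only [up, h, and_self, if_true]
        exact hp'.2.2
      · simp only [up, h, if_false]
        exact hh4 x' l'
  · intro p hp p' hp' heq
    have hz := hrep p hp
    have hz' := hrep p' hp'
    obtain ⟨ρ, a, c, b⟩ := p
    obtain ⟨ρ', a', c', b'⟩ := p'
    simp only [mod, Prod.mk.injEq] at heq
    obtain ⟨h1, h2, h3, h4, h5⟩ := heq
    have ea : a = a' := by
      have := congrFun h2 x
      rw [hz.2.1, hz'.2.1] at this
      exact this
    have ec : c = c' := by
      have := congrFun (congrFun h5 x) l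
      rwa [up_self, up_self] at this
    have eb : b = b' := by
      have := congrFun (congrFun h3 x) l
      rwa [up_self, up_self] at this
    have eρ : ρ = ρ' := by
      funext x' l'
      by_cases h : x' = x ∧ l' = l
      · obtain ⟨rfl, rfl⟩ := h
        exact h1
      · have := congrFun (congrFun h3 x') l'
        simp only [up, h, if_false] at this
        rw [hz.2.2 x' l' h, hz'.2.2 x' l' h] at this
        exact this
    rw [ea, ec, eb, eρ]

theorem fibre {A B : Type} [Fintype A] [Fintype B] {s q : ℕ} (hK : S_KAP) (r : A → B → Prop)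
    (L M1 : ℕ) (x : Option (Fin s)) (l : Fin q) (ρ : Option (Fin s) → Fin q → A) (y : B) :
    (Finset.univ.filter (fun z : Cop A B s q => CC r L M1 z ∧ z.2.1 = ρ ∧
      z.2.2.2 x l = y)).card ≤
      (M1 ^ s * L ^ hh s q) * ((XX r L M1 x l ρ).filter (fun a => r a y)).card := by
  refine Finset.card_le_mul_card_image_of_maps_to (f := fun z : Cop A B s q => z.1 x) ?_ _ ?_
  · intro z hz
    simp only [Finset.mem_filter, Finset.mem_univ, true_and, XX] at hz ⊢
    refine ⟨⟨z, hz.1, rfl, fun x' l' _ => by rw [hz.2.1]⟩, ?_⟩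
    rw [← hz.2.2]
    exact hz.1.1.2.2.1 x l
  · intro a _
    refine le_trans (Finset.card_le_card ?_) (hK s q L M1 A B r ρ x a)
    intro z hz
    simp only [Finset.mem_filter, Finset.mem_univ, true_and] at hz ⊢
    exact ⟨hz.1.1, hz.1.2.1, hz.2⟩

theorem fibre0 {A B : Type} [Fintype A] [Fintype B] {s q : ℕ} (r : A → B → Prop)
    (L M1 : ℕ) (x : Option (Fin s)) (l : Fin q) (ρ : Option (Fin s) → Fin q → A) (y : B)
    (h : ¬ r (ρ x l) y) :
    (Finset.univ.filter (fun z : Cop A B s q => CC r L M1 z ∧ z.2.1 = ρ ∧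
      z.2.2.2 x l = y)).card = 0 := by
  rw [Finset.card_eq_zero, Finset.filter_eq_empty_iff]
  rintro z _ ⟨h1, h2, h3⟩
  apply h
  rw [← h2, ← h3]
  exact h1.1.2.2.2 x l

/-- sum of the large degrees -/
theorem large {A B : Type} [Fintype A] [Fintype B] {s q t M0 : ℕ} (hE : E1P s q t M0)
    (r : A → B → Prop) (hS : ¬ SBlow r s q t) (X : Finset A) (μ0 : ℝ) (hμ : 0 < μ0) :
    ∑ y ∈ Finset.univ.filter (fun y : B => (M0 : ℝ) + μ0 * (X.card : ℝ) <
        ((X.filter (fun a => r a y)).card : ℝ)), ((X.filter (fun a => r a y)).card : ℝ) ≤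
      2 * (LT s q t : ℝ) * (X.card : ℝ) / μ0 := by
  have h1 := hE A B r X hS
  have h1' : ∑ y ∈ Finset.univ.filter (fun y : B => M0 ≤ (X.filter (fun x => r x y)).card),
      ((X.filter (fun x => r x y)).card : ℝ) ^ 2 ≤ 2 * (LT s q t : ℝ) * (X.card : ℝ) ^ 2 := by
    exact_mod_cast h1
  rcases Nat.eq_zero_or_pos X.card with h0 | h0
  · have : X = ∅ := Finset.card_eq_zero.mp h0
    subst this
    simp
  · have hX : (0 : ℝ) < X.card := by exact_mod_cast h0
    rw [le_div_iff₀ hμ]
    refine le_of_mul_le_mul_right ?_ hX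
    calc (∑ y ∈ Finset.univ.filter (fun y : B => (M0 : ℝ) + μ0 * (X.card : ℝ) <
        ((X.filter (fun a => r a y)).card : ℝ)), ((X.filter (fun a => r a y)).card : ℝ)) * μ0 *
          (X.card : ℝ)
        = ∑ y ∈ Finset.univ.filter (fun y : B => (M0 : ℝ) + μ0 * (X.card : ℝ) <
          ((X.filter (fun a => r a y)).card : ℝ)), ((X.filter (fun a => r a y)).card : ℝ) *
            (μ0 * (X.card : ℝ)) := by
          rw [mul_assoc, Finset.sum_mul]
      _ ≤ ∑ y ∈ Finset.univ.filter (fun y : B => (M0 : ℝ) + μ0 * (X.card : ℝ) <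
          ((X.filter (fun a => r a y)).card : ℝ)), ((X.filter (fun a => r a y)).card : ℝ) ^ 2 := by
          refine Finset.sum_le_sum fun y hy => ?_
          rw [Finset.mem_filter] at hy
          rw [sq]
          refine mul_le_mul_of_nonneg_left ?_ (Nat.cast_nonneg _)
          have := hy.2
          have h0 : (0 : ℝ) ≤ M0 := Nat.cast_nonneg _
          linarith
      _ ≤ ∑ y ∈ Finset.univ.filter (fun y : B => M0 ≤ (X.filter (fun x => r x y)).card),
          ((X.filter (fun x => r x y)).card : ℝ) ^ 2 := by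
          refine Finset.sum_le_sum_of_subset_of_nonneg ?_ (fun _ _ _ => by positivity)
          intro y hy
          rw [Finset.mem_filter] at hy ⊢
          refine ⟨hy.1, ?_⟩
          have := hy.2
          have h0 : (0 : ℝ) ≤ μ0 * (X.card : ℝ) := by positivity
          have h2 : (M0 : ℝ) ≤ ((X.filter (fun a => r a y)).card : ℝ) := by linarith
          exact_mod_cast h2
      _ ≤ 2 * (LT s q t : ℝ) * (X.card : ℝ) ^ 2 := h1'
      _ = 2 * (LT s q t : ℝ) * (X.card : ℝ) * (X.card : ℝ) := by ring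

theorem main : S_E1 → S_KAP → S_HC → S_G := by
  intro hE1 hKAP hHC s q t K M1 ε hs hq ht hKp hε
  obtain ⟨M0, hM0, hE⟩ := hE1 s q t
  set h := hh s q with hh_def
  set L := LT s q t with hL_def
  set κ : ℝ := ((M1 ^ s * L ^ h : ℕ) : ℝ) + 1 with hκ_def
  have hκ : 0 < κ := by positivity
  have hK0 : (0 : ℝ) < K := by exact_mod_cast hKp
  set ε' : ℝ := ε / (2 * κ * (K : ℝ) ^ (2 * h)) with hε'_def
  have hε' : 0 < ε' := by positivity
  set C : ℝ := κ * M0 + 4 * κ * L * (K : ℝ) ^ (2 * h + 1) / (ε' * ε) + 1 with hC_def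
  have hC1 : 1 ≤ C := by
    have : 0 ≤ κ * M0 + 4 * κ * L * (K : ℝ) ^ (2 * h + 1) / (ε' * ε) := by positivity
    linarith
  refine ⟨C, ?_⟩
  intro A B _ _ _ r D x l yf hR hCD hCA hS
  have hN : (0 : ℝ) < Fintype.card A := by exact_mod_cast Fintype.card_pos
  have hD : (0 : ℝ) < D := by linarith
  set N : ℝ := (Fintype.card A : ℝ) with hN_def
  -- sum of |X|
  have hsumX : (∑ ρ, ((XX r L M1 x l ρ).card : ℝ)) * (D : ℝ) ^ 2 ≤
      N * (N * ((K : ℝ) * D) ^ (2 * h)) := by
    have h1 := sumXX (s := s) (q := q) r L M1 D K hR x l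
    have h2 := (hHC s q K A B r D hR).2
    have h3 : (∑ ρ, (XX r L M1 x l ρ).card) * D ^ 2 ≤
        Fintype.card A * (Fintype.card A * (K * D) ^ (2 * hh s q)) :=
      h1.trans (Nat.mul_le_mul_left _ h2)
    have h4 : (((∑ ρ, (XX r L M1 x l ρ).card) * D ^ 2 : ℕ) : ℝ) ≤
        ((Fintype.card A * (Fintype.card A * (K * D) ^ (2 * hh s q)) : ℕ) : ℝ) := by
      exact_mod_cast h3
    push_cast at h4
    exact h4
  set SX : ℝ := ∑ ρ, ((XX r L M1 x l ρ).card : ℝ) with hSX_def
  set μ0 : ℝ := ε' * ((D : ℝ) ^ 2 / N) with hμ0_def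
  have hμ0 : 0 < μ0 := by positivity
  let m : (Option (Fin s) → Fin q → A) → B → ℝ := fun ρ y =>
    (((XX r L M1 x l ρ).filter (fun a => r a y)).card : ℝ)
  let g : (Option (Fin s) → Fin q → A) → B → ℝ := fun ρ y =>
    if (M0 : ℝ) + μ0 * ((XX r L M1 x l ρ).card : ℝ) < m ρ y then m ρ y else 0
  have hg0 : ∀ ρ y, 0 ≤ g ρ y := by
    intro ρ y
    simp only [g]
    split_ifs
    · exact Nat.cast_nonneg _
    · exact le_refl 0
  have hgsum : ∀ ρ, ∑ y, g ρ y ≤ 2 * (L : ℝ) * ((XX r L M1 x l ρ).card : ℝ) / μ0 := by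
    intro ρ
    have := large hE r hS (XX r L M1 x l ρ) μ0 hμ0
    rw [Finset.sum_filter] at this
    exact this
  have hfib : (((Finset.univ.filter (fun z : Cop A B s q => CC r L M1 z ∧
      z.2.2.2 x l = yf z.2.1)).card : ℕ) : ℝ) ≤
      ∑ ρ, (κ * (M0 + μ0 * ((XX r L M1 x l ρ).card : ℝ)) +
        κ * ∑ y ∈ Finset.univ.filter (fun y => r (ρ x l) y), g ρ y) := by
    have e1 : (Finset.univ.filter (fun z : Cop A B s q => CC r L M1 z ∧
        z.2.2.2 x l = yf z.2.1)).card = ∑ ρ, (Finset.univ.filter (fun z : Cop A B s q =>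
          CC r L M1 z ∧ z.2.1 = ρ ∧ z.2.2.2 x l = yf ρ)).card := by
      rw [Finset.card_eq_sum_card_fiberwise (f := fun z : Cop A B s q => z.2.1)
        (t := Finset.univ) (fun _ _ => Finset.mem_univ _)]
      refine Finset.sum_congr rfl fun ρ _ => ?_
      congr 1
      ext z
      simp only [Finset.mem_filter, Finset.mem_univ, true_and]
      constructor
      · rintro ⟨⟨h1, h2⟩, h3⟩
        exact ⟨h1, h3, by rw [h2, h3]⟩
      · rintro ⟨h1, h2, h3⟩
        exact ⟨⟨h1, by rw [h3, h2]⟩, h2⟩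
    rw [e1]
    push_cast
    refine Finset.sum_le_sum fun ρ _ => ?_
    have hnn : 0 ≤ ∑ y ∈ Finset.univ.filter (fun y => r (ρ x l) y), g ρ y :=
      Finset.sum_nonneg fun y _ => hg0 ρ y
    by_cases hr : r (ρ x l) (yf ρ)
    · have h1 := fibre hKAP r L M1 x l ρ (yf ρ)
      have h2 : (((Finset.univ.filter (fun z : Cop A B s q => CC r L M1 z ∧ z.2.1 = ρ ∧
          z.2.2.2 x l = yf ρ)).card : ℕ) : ℝ) ≤ κ * m ρ (yf ρ) := by
        have h3 : (((Finset.univ.filter (fun z : Cop A B s q => CC r L M1 z ∧ z.2.1 = ρ ∧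
            z.2.2.2 x l = yf ρ)).card : ℕ) : ℝ) ≤
            (((M1 ^ s * L ^ hh s q) * ((XX r L M1 x l ρ).filter
              (fun a => r a (yf ρ))).card : ℕ) : ℝ) := by
          exact_mod_cast h1
        refine h3.trans ?_
        rw [Nat.cast_mul]
        refine mul_le_mul_of_nonneg_right ?_ (Nat.cast_nonneg _)
        rw [hκ_def]
        linarith
      refine h2.trans ?_
      by_cases hm : (M0 : ℝ) + μ0 * ((XX r L M1 x l ρ).card : ℝ) < m ρ (yf ρ)
      · have h4 : m ρ (yf ρ) ≤ ∑ y ∈ Finset.univ.filter (fun y => r (ρ x l) y), g ρ y := by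
          have h5 : g ρ (yf ρ) = m ρ (yf ρ) := by
            simp only [g]
            rw [if_pos hm]
          rw [← h5]
          exact Finset.single_le_sum (f := fun y => g ρ y) (fun y _ => hg0 ρ y)
            (by simp [hr])
        have h6 : 0 ≤ κ * (M0 + μ0 * ((XX r L M1 x l ρ).card : ℝ)) := by positivity
        have h7 := mul_le_mul_of_nonneg_left h4 hκ.le
        linarith
      · have h6 : 0 ≤ κ * ∑ y ∈ Finset.univ.filter (fun y => r (ρ x l) y), g ρ y :=
          mul_nonneg hκ.le hnn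
        have h7 := mul_le_mul_of_nonneg_left (not_lt.mp hm) hκ.le
        linarith
    · rw [fibre0 r L M1 x l ρ (yf ρ) hr]
      have h6 : 0 ≤ κ * (M0 + μ0 * ((XX r L M1 x l ρ).card : ℝ)) := by positivity
      have h7 : 0 ≤ κ * ∑ y ∈ Finset.univ.filter (fun y => r (ρ x l) y), g ρ y :=
        mul_nonneg hκ.le hnn
      simp only [Nat.cast_zero]
      linarith
  -- the second sum
  have hsec : N * ∑ ρ, ∑ y ∈ Finset.univ.filter (fun y => r (ρ x l) y), g ρ y ≤
      K * D * (2 * L / μ0) * SX := by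
    rw [hN_def, ← sum_up x l (fun ρ => ∑ y ∈ Finset.univ.filter (fun y => r (ρ x l) y), g ρ y)]
    rw [hSX_def, Finset.mul_sum]
    refine Finset.sum_le_sum fun ρ _ => ?_
    have e2 : ∀ b, ∑ y ∈ Finset.univ.filter (fun y => r (up x l ρ b x l) y), g (up x l ρ b) y =
        ∑ y, if r b y then g ρ y else 0 := by
      intro b
      rw [Finset.sum_filter]
      refine Finset.sum_congr rfl fun y _ => ?_
      rw [up_self]
      have : g (up x l ρ b) y = g ρ y := by
        simp only [g, m, XX_up]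
      rw [this]
    simp only [e2]
    rw [Finset.sum_comm]
    calc ∑ y, ∑ b, (if r b y then g ρ y else 0) = ∑ y, (deg2 r y : ℝ) * g ρ y := by
          refine Finset.sum_congr rfl fun y _ => ?_
          rw [← Finset.sum_filter, Finset.sum_const, nsmul_eq_mul]
          rfl
      _ ≤ ∑ y, (K * D : ℝ) * g ρ y := by
          refine Finset.sum_le_sum fun y _ => ?_
          refine mul_le_mul_of_nonneg_right ?_ (hg0 ρ y)
          exact_mod_cast hR.ub y
      _ = (K * D : ℝ) * ∑ y, g ρ y := by rw [Finset.mul_sum]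
      _ ≤ (K * D : ℝ) * (2 * (L : ℝ) * ((XX r L M1 x l ρ).card : ℝ) / μ0) :=
          mul_le_mul_of_nonneg_left (hgsum ρ) (by positivity)
      _ = K * D * (2 * L / μ0) * ((XX r L M1 x l ρ).card : ℝ) := by ring
  set SG : ℝ := ∑ ρ, ∑ y ∈ Finset.univ.filter (fun y => r (ρ x l) y), g ρ y with hSG_def
  have hSX2 : SX ≤ N * (N * ((K : ℝ) * D) ^ (2 * h)) / (D : ℝ) ^ 2 := by
    rw [le_div_iff₀ (by positivity)]
    exact hsumX
  have hfin : ∑ ρ, (κ * (M0 + μ0 * ((XX r L M1 x l ρ).card : ℝ)) +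
        κ * ∑ y ∈ Finset.univ.filter (fun y => r (ρ x l) y), g ρ y) =
      κ * M0 * N ^ ((s + 1) * q) + κ * μ0 * SX + κ * SG := by
    rw [Finset.sum_add_distrib, ← Finset.mul_sum, ← Finset.mul_sum, Finset.sum_add_distrib,
      ← Finset.mul_sum, Finset.sum_const, nsmul_eq_mul]
    have : ((Finset.univ : Finset (Option (Fin s) → Fin q → A)).card : ℝ) =
        N ^ ((s + 1) * q) := by
      rw [Finset.card_univ]
      simp only [Fintype.card_fun, Fintype.card_option, Fintype.card_fin]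
      push_cast
      rw [← pow_mul, mul_comm q (s + 1)]
    rw [this, ← hSX_def, ← hSG_def]
    ring
  rw [hfin] at hfib
  refine hfib.trans ?_
  have t1 : κ * M0 * N ^ ((s + 1) * q) ≤ C * N ^ ((s + 1) * q) := by
    refine mul_le_mul_of_nonneg_right ?_ (by positivity)
    have : 0 ≤ 4 * κ * L * (K : ℝ) ^ (2 * h + 1) / (ε' * ε) := by positivity
    rw [hC_def]
    linarith
  have t2 : κ * μ0 * SX ≤ ε / 2 * N * (D : ℝ) ^ (2 * h) := by
    calc κ * μ0 * SX ≤ κ * μ0 * (N * (N * ((K : ℝ) * D) ^ (2 * h)) / (D : ℝ) ^ 2) :=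
          mul_le_mul_of_nonneg_left hSX2 (by positivity)
      _ = ε / 2 * N * (D : ℝ) ^ (2 * h) := by
          rw [hμ0_def, hε'_def, mul_pow]
          field_simp
  have t3 : κ * SG ≤ ε / 2 * N * (D : ℝ) ^ (2 * h) := by
    have hSG : SG ≤ K * D * (2 * L / μ0) * (N * (N * ((K : ℝ) * D) ^ (2 * h)) / (D : ℝ) ^ 2) / N := by
      rw [le_div_iff₀ hN, mul_comm SG N]
      exact hsec.trans (mul_le_mul_of_nonneg_left hSX2 (by positivity))
    have hCN : N ≤ (D : ℝ) ^ 3 / C := by
      rw [le_div_iff₀ (by linarith), mul_comm]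
      exact hCA
    have hC2 : 4 * κ * L * (K : ℝ) ^ (2 * h + 1) / (ε' * ε) ≤ C := by
      have : 0 ≤ κ * M0 := by positivity
      rw [hC_def]
      linarith
    have hC0 : 0 < C := by linarith
    calc κ * SG ≤ κ * (K * D * (2 * L / μ0) *
          (N * (N * ((K : ℝ) * D) ^ (2 * h)) / (D : ℝ) ^ 2) / N) :=
          mul_le_mul_of_nonneg_left hSG hκ.le
      _ = (2 * κ * L * (K : ℝ) ^ (2 * h + 1) / ε') * (N / (D : ℝ) ^ 3) *
          (N * (D : ℝ) ^ (2 * h)) := by
          rw [hμ0_def, mul_pow]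
          field_simp
          ring
      _ ≤ (2 * κ * L * (K : ℝ) ^ (2 * h + 1) / ε') * (1 / C) *
          (N * (D : ℝ) ^ (2 * h)) := by
          refine mul_le_mul_of_nonneg_right (mul_le_mul_of_nonneg_left ?_ (by positivity))
            (by positivity)
          rw [div_le_div_iff₀ (by positivity) hC0]
          linarith
      _ ≤ ε / 2 * (N * (D : ℝ) ^ (2 * h)) := by
          refine mul_le_mul_of_nonneg_right ?_ (by positivity)
          rw [mul_one_div, div_le_iff₀ hC0]
          calc 2 * κ * L * (K : ℝ) ^ (2 * h + 1) / ε' =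
              ε / 2 * (4 * κ * L * (K : ℝ) ^ (2 * h + 1) / (ε' * ε)) := by
                field_simp
                ring
            _ ≤ ε / 2 * C := mul_le_mul_of_nonneg_left hC2 (by positivity)
      _ = ε / 2 * N * (D : ℝ) ^ (2 * h) := by ring
  have : ε * N * (D : ℝ) ^ (2 * h) = ε / 2 * N * (D : ℝ) ^ (2 * h) +
      ε / 2 * N * (D : ℝ) ^ (2 * h) := by ring
  rw [this]
  linarith

end Pool.Agent.W588.TE.G
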